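import Pool.Agent.H45.MW.All2

/-!
# The longest increasing subsequence of a Mallows permutation has a Tracy-Widom limit whenever
`n (1 - q_n) → 0`

For a Mallows(`q`) random permutation of size `n` (`P(π) = q^{inv π}/Z_{n,q}`) let `L_n(q)` be the length of
a longest increasing subsequence, and let `F` be the distribution function of the limit of
`(L_n(1) - 2√n)/n^{1/6}` (so `F = F₂` is the Tracy-Widom distribution, by Baik, Deift and Johansson).

**Theorem.** Let `0 < q_n ≤ 1` and `n (1 - q_n) → 0`. Then
`(L_n(q_n) - a_n)/n^{1/6}` converges in distribution to `F`, where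
`a_n = 2 √(n/β_n) arsinh √(e^{β_n} - 1)`, `β_n = (n-1) log (1/q_n)` (and `a_n = 2√n` if `q_n = 1`).

In particular `L_n` has a Tracy-Widom limit along `q_n = 1 - n^{-γ}` for all `γ > 1`, and along all sequences
with `1 - q_n = o(1/n)`. This was known only for `1 - q_n = o(n^{-4/3})`, where the centring is `2√n`;
for larger `1 - q_n` the centring is different.

The proof. (1) The relative order of `n` independent points with law the Frank copula with parameter `β` is close
to the Mallows measure in total variation if `n (1-q) → 0`: the logarithm of the density is `log(1/q)` times a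
degenerate `U`-statistic, and its exponential has mean close to one by the product formula for `Z_{n,q}`.
(2) The Frank density is `r(x,y) a(x) a(y)` with `1 - r(x,y) ≤ 15 β (x-y)²`, so its points are obtained from
independent points with a product law (a uniform permutation of size about `N = n A²`, `A = ∫ a`) by deleting the
point `(x,y)` with probability `1 - r(x,y)`. (3) For every longest increasing subsequence of `N` uniform points the
sum of `(x-y)²` over its points is `O(N^{1/6})` in probability: Burke's theorem with a boundary (for the discrete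
Hammersley process) gives for each of `N^{1/6}` vertical lines an upper bound for the supremum, over a window of
length `N^{-1/6}` of the heights `y`, of the sum of the two longest increasing subsequences through `(x,y)`, with
the error `O(N^{1/6})`, so the deviation of the subsequence from the diagonal has Gaussian tails on the scale
`N^{-1/6}`. (4) So only `O(β n^{1/6}) = o(n^{1/6})` points of a longest increasing subsequence are deleted.
-/

set_option autoImplicit false

open Filter Topology Finset

namespace Pool.Agent.Results.MP_5d6058_pr.TracyWidomSubcritical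

open Classical in
/-- The length of a longest increasing subsequence of the permutation `π` (the largest size of a set of
positions on which `π` is strictly increasing). -/
noncomputable def lis {n : ℕ} (π : Equiv.Perm (Fin n)) : ℕ :=
  ((univ : Finset (Finset (Fin n))).filter
    (fun s : Finset (Fin n) => StrictMonoOn π (↑s : Set (Fin n)))).sup Finset.card

/-- The number of inversions of `π`. -/
def inv {n : ℕ} (π : Equiv.Perm (Fin n)) : ℕ :=
  ((univ : Finset (Fin n × Fin n)).filter (fun p => p.1 < p.2 ∧ π p.2 < π p.1)).card

open Classical in
/-- `P(L_n(q) ≤ x)` for the Mallows(`q`) measure `P(π) = q^{inv π} / ∑_σ q^{inv σ}`. -/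
noncomputable def mallowsCDF (n : ℕ) (q x : ℝ) : ℝ :=
  (∑ π : Equiv.Perm (Fin n), if (lis π : ℝ) ≤ x then q ^ inv π else 0) /
    ∑ π : Equiv.Perm (Fin n), q ^ inv π

/-- `a_n = 2 √n · arsinh √(e^β - 1) / √β` with `β = (n-1) log (1/q)`, and `2√n` if `β = 0`. -/
noncomputable def centring (n : ℕ) (q : ℝ) : ℝ :=
  if 0 < -((n : ℝ) - 1) * Real.log q then
    2 * √n * (Real.arsinh (√(Real.exp (-((n : ℝ) - 1) * Real.log q) - 1)) /
      √(-((n : ℝ) - 1) * Real.log q))
  else 2 * √n

/-- `F` is the Tracy-Widom distribution function: the distribution function of the limit in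
distribution of `(L_n(1) - 2√n)/n^{1/6}`. -/
def IsTracyWidom (F : ℝ → ℝ) : Prop :=
  Monotone F ∧ Tendsto F atBot (𝓝 0) ∧ Tendsto F atTop (𝓝 1) ∧
    ∀ x, ContinuousAt F x →
      Tendsto (fun n : ℕ => mallowsCDF n 1 (2 * √n + x * (n : ℝ) ^ (1 / 6 : ℝ))) atTop (𝓝 (F x))

/-- **Tracy-Widom limit for the longest increasing subsequence of Mallows permutations** along all
sequences with `n (1 - q_n) → 0`. -/
theorem result (F : ℝ → ℝ) (hF : IsTracyWidom F) (q : ℕ → ℝ) (hq : ∀ n, 0 < q n ∧ q n ≤ 1)
    (h : Tendsto (fun n : ℕ => n * (1 - q n)) atTop (𝓝 0)) (x : ℝ)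
    (hx : ContinuousAt F x) :
    Tendsto (fun n : ℕ => mallowsCDF n (q n) (centring n (q n) + x * (n : ℝ) ^ (1 / 6 : ℝ))) atTop
      (𝓝 (F x)) :=
  Pool.Agent.H45.MW.main2 F hF q hq h x hx

end Pool.Agent.Results.MP_5d6058_pr.TracyWidomSubcritical
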